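import Mathlib
import Pool.Agent.Lib.helper11.QI

set_option autoImplicit false
open Matrix Pool.Agent.QI
open scoped ComplexOrder

namespace Pool.Agent.Results.MP_472e54_mp.Chiral

/-- index set of the product basis of `ℂ^{d_1} ⊗ ⋯ ⊗ ℂ^{d_n}` -/
abbrev Idx {n : ℕ} (d : Fin n → ℕ) := (i : Fin n) → Fin (d i)

/-- operators on the tensor product -/
abbrev Op {n : ℕ} (d : Fin n → ℕ) := Matrix (Idx d) (Idx d) ℂ

/-- density operators -/
def IsState {m : Type} [Fintype m] (ρ : Matrix m m ℂ) : Prop := ρ.PosSemidef ∧ ρ.trace = 1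

/-- the tensor product `A_1 ⊗ ⋯ ⊗ A_n` -/
def prodOp {n : ℕ} {d : Fin n → ℕ} (A : (i : Fin n) → Matrix (Fin (d i)) (Fin (d i)) ℂ) : Op d :=
  Matrix.of fun x y => ∏ i, A i (x i) (y i)

/-- separable states: the convex hull of the product states -/
def Sep {n : ℕ} (d : Fin n → ℕ) : Set (Op d) :=
  convexHull ℝ {σ | ∃ ρ : (i : Fin n) → Matrix (Fin (d i)) (Fin (d i)) ℂ,
    (∀ i, IsState (ρ i)) ∧ σ = prodOp ρ}

/-- entanglement witness -/
def IsEW {n : ℕ} {d : Fin n → ℕ} (W : Op d) : Prop :=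
  W.IsHermitian ∧ (∀ σ ∈ Sep d, 0 ≤ (W * σ).trace.re) ∧ ∃ ρ, IsState ρ ∧ (W * ρ).trace.re < 0

/-- optimal entanglement witness -/
def IsOptEW {n : ℕ} {d : Fin n → ℕ} (W : Op d) : Prop :=
  IsEW W ∧ ¬ ∃ (ε : ℝ) (P : Op d), 0 < ε ∧ P.PosSemidef ∧ P ≠ 0 ∧ IsEW (W - (ε : ℂ) • P)

/-- related by local unitaries -/
def LU {n : ℕ} {d : Fin n → ℕ} (W M : Op d) : Prop :=
  ∃ U : (i : Fin n) → Matrix (Fin (d i)) (Fin (d i)) ℂ,
    (∀ i, U i ∈ Matrix.unitaryGroup (Fin (d i)) ℂ) ∧ M = prodOp U * W * (prodOp U)ᴴ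

abbrev d3 : Fin 3 → ℕ := fun _ => 2
abbrev X := Fin 3 → Fin 2

def sh (x : X) : X := fun i => x (i + 1)
def sh' (x : X) : X := fun i => x (i + 2)

noncomputable def chi : Op d3 := Matrix.of fun x y =>
  2 * Complex.I * ((if y = sh' x then 1 else 0) - (if y = sh x then 1 else 0))

lemma iff1 : ∀ x y : X, (y = sh' x ↔ x = sh y) := by decide
lemma iff2 : ∀ x y : X, (y = sh x ↔ x = sh' y) := by decide

lemma chi_mul (V : Op d3) (x y : X) :
    (chi * V) x y = 2 * Complex.I * (V (sh' x) y - V (sh x) y) := by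
  simp [Matrix.mul_apply, chi, mul_sub, sub_mul, Finset.sum_sub_distrib]

lemma mul_chi (V : Op d3) (x y : X) :
    (V * chi) x y = 2 * Complex.I * (V x (sh y) - V x (sh' y)) := by
  have e : ∀ z : X, chi z y =
      2 * Complex.I * ((if z = sh y then 1 else 0) - (if z = sh' y then 1 else 0)) := fun z => by
    simp only [chi, Matrix.of_apply, iff1 z y, iff2 z y]
  simp [Matrix.mul_apply, e, mul_sub, Finset.sum_sub_distrib]
  ring

lemma chi_herm : chi.IsHermitian := by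
  ext x y
  simp only [Matrix.conjTranspose_apply, chi, Matrix.of_apply, iff1 y x, iff2 y x]
  split_ifs <;> simp

lemma sum3 (f : X → ℂ) : ∑ x, f x = f ![0, 0, 0] + f ![0, 0, 1] + f ![0, 1, 0] + f ![0, 1, 1] +
    f ![1, 0, 0] + f ![1, 0, 1] + f ![1, 1, 0] + f ![1, 1, 1] := by
  have : (Finset.univ : Finset X) = {![0, 0, 0], ![0, 0, 1], ![0, 1, 0], ![0, 1, 1],
    ![1, 0, 0], ![1, 0, 1], ![1, 1, 0], ![1, 1, 1]} := by decide
  rw [this]
  repeat rw [Finset.sum_insert (by decide)]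
  rw [Finset.sum_singleton]; ring

lemma state2 (ρ : Matrix (Fin 2) (Fin 2) ℂ) (h : IsState ρ) : ∃ a b c : ℝ,
    a ^ 2 + b ^ 2 + c ^ 2 ≤ 1 ∧ ρ 0 0 = ((1 + c) / 2 : ℝ) ∧ ρ 1 1 = ((1 - c) / 2 : ℝ) ∧
    ρ 0 1 = ⟨a / 2, -b / 2⟩ ∧ ρ 1 0 = ⟨a / 2, b / 2⟩ := by
  have h1 := h.1.det_nonneg
  have h2 := h.2
  have h3 : ρ 1 0 = star (ρ 0 1) := (h.1.1.apply 1 0).symm
  have h4 := (Complex.nonneg_iff.1 (h.1.diag_nonneg (i := 0))).2
  have h5 := (Complex.nonneg_iff.1 (h.1.diag_nonneg (i := 1))).2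
  rw [Matrix.trace_fin_two] at h2
  have h6 := congrArg Complex.re h2
  rw [Matrix.det_fin_two, h3] at h1
  have h7 := (Complex.nonneg_iff.1 h1).1
  simp [← h4, ← h5] at h6 h7
  refine ⟨2 * (ρ 0 1).re, -2 * (ρ 0 1).im, 2 * (ρ 0 0).re - 1, ?_, ?_, ?_, ?_, ?_⟩
  · have : (ρ 1 1).re = 1 - (ρ 0 0).re := by linarith
    rw [this] at h7; nlinarith
  · apply Complex.ext <;> simp [← h4]
  · apply Complex.ext <;> simp [← h5]; linarith
  · apply Complex.ext <;> simp
  · rw [h3]; apply Complex.ext <;> simp; ring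

lemma det_le (a b c a' b' c' a'' b'' c'' : ℝ) (h : a ^ 2 + b ^ 2 + c ^ 2 ≤ 1)
    (h' : a' ^ 2 + b' ^ 2 + c' ^ 2 ≤ 1) (h'' : a'' ^ 2 + b'' ^ 2 + c'' ^ 2 ≤ 1) :
    |a * (b' * c'' - c' * b'') + b * (c' * a'' - a' * c'') + c * (a' * b'' - b' * a'')| ≤ 1 := by
  have h1 : (b' * c'' - c' * b'') ^ 2 + (c' * a'' - a' * c'') ^ 2 + (a' * b'' - b' * a'') ^ 2
      ≤ 1 := by
    have : (a' ^ 2 + b' ^ 2 + c' ^ 2) * (a'' ^ 2 + b'' ^ 2 + c'' ^ 2) ≤ 1 :=
      mul_le_one₀ h' (by positivity) h''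
    nlinarith [sq_nonneg (a' * a'' + b' * b'' + c' * c'')]
  rw [abs_le]
  constructor
  · nlinarith [sq_nonneg (a + (b' * c'' - c' * b'')), sq_nonneg (b + (c' * a'' - a' * c'')),
      sq_nonneg (c + (a' * b'' - b' * a''))]
  · nlinarith [sq_nonneg (a - (b' * c'' - c' * b'')), sq_nonneg (b - (c' * a'' - a' * c'')),
      sq_nonneg (c - (a' * b'' - b' * a''))]

lemma chi_prod (ρ : Fin 3 → Matrix (Fin 2) (Fin 2) ℂ) (h : ∀ i, IsState (ρ i)) :
    |(chi * prodOp (d := d3) ρ).trace.re| ≤ 1 ∧ (prodOp (d := d3) ρ).trace.re = 1 := by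
  obtain ⟨a, b, c, h0, e1, e2, e3, e4⟩ := state2 _ (h 0)
  obtain ⟨a', b', c', h0', e1', e2', e3', e4'⟩ := state2 _ (h 1)
  obtain ⟨a'', b'', c'', h0'', e1'', e2'', e3'', e4''⟩ := state2 _ (h 2)
  constructor
  · have := det_le a b c a' b' c' a'' b'' c'' h0 h0' h0''
    rw [← abs_neg] at this
    convert this using 2
    simp only [Matrix.trace, Matrix.diag, chi_mul]
    rw [sum3]
    simp [prodOp, Fin.prod_univ_three, sh, sh', *]
    ring
  · simp only [Matrix.trace, Matrix.diag]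
    rw [sum3]
    simp [prodOp, Fin.prod_univ_three, *]
    ring

noncomputable def Wit (s : ℤ) : Op d3 := 1 - (s : ℂ) • chi

/-- twice the eigenprojection of a Pauli matrix -/
def Z (k : Fin 3) (t : ℤ) : Matrix (Fin 2) (Fin 2) GaussianInt :=
  ![!![1, ⟨t, 0⟩; ⟨t, 0⟩, 1], !![1, ⟨0, -t⟩; ⟨0, t⟩, 1], !![⟨1 + t, 0⟩, 0; 0, ⟨1 - t, 0⟩]] k

def sg (b : Bool) : ℤ := if b then 1 else -1

abbrev Fr := Fin 3 × Bool × Bool × Bool

def ax (f : Fr) (i : Fin 3) : Fin 3 := if f.2.1 then f.1 + i else f.1 - i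

def sn (s : ℤ) (f : Fr) (i : Fin 3) : ℤ :=
  ![sg f.2.2.1, sg f.2.2.2, -s * sg f.2.1 * sg f.2.2.1 * sg f.2.2.2] i

def eZ (x y : X) : ℤ := (if y = sh' x then 1 else 0) - (if y = sh x then 1 else 0)

lemma frames : ∀ s ∈ ({1, -1} : Finset ℤ), ∀ x y : X,
    ∑ f : Fr, ∏ i, Z (ax f i) (sn s f i) (x i) (y i) =
      ⟨if x = y then 24 else 0, 8 * s * eZ x y⟩ := by
  decide +kernel

lemma sn_pm : ∀ s ∈ ({1, -1} : Finset ℤ), ∀ f i, sn s f i = 1 ∨ sn s f i = -1 := by decide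

noncomputable def rho (k : Fin 3) (t : ℤ) : Matrix (Fin 2) (Fin 2) ℂ :=
  Matrix.of fun i j => GaussianInt.toComplex (Z k t i j) / 2

lemma rho_state (k : Fin 3) (t : ℤ) (ht : t = 1 ∨ t = -1) : IsState (rho k t) := by
  constructor
  · have : rho k t = (rho k t)ᴴ * rho k t := by
      ext i j
      rcases ht with rfl | rfl <;> fin_cases k <;> fin_cases i <;> fin_cases j <;>
        simp [rho, Z, Matrix.mul_apply, GaussianInt.toComplex_def', Complex.ext_iff] <;> norm_num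
    rw [this]; exact Matrix.posSemidef_conjTranspose_mul_self _
  · fin_cases k <;> simp [rho, Z, Matrix.trace_fin_two, GaussianInt.toComplex_def'] <;> ring

noncomputable def sig (s : ℤ) : Op d3 := (1 / 8 : ℂ) • 1 + ((s : ℂ) / 48) • chi

lemma sig_sep (s : ℤ) (hs : s ∈ ({1, -1} : Finset ℤ)) : sig s ∈ Sep d3 := by
  have : sig s = ∑ f : Fr, (1 / 24 : ℝ) • prodOp (d := d3) (fun i => rho (ax f i) (sn s f i)) := by
    ext x y
    have h := congrArg GaussianInt.toComplex (frames s hs x y)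
    rw [map_sum] at h
    simp only [map_prod] at h
    have e : ∀ f : Fr, ((1 / 24 : ℝ) • prodOp (d := d3) (fun i => rho (ax f i) (sn s f i))) x y =
        (1 / 192 : ℂ) * ∏ i, GaussianInt.toComplex (Z (ax f i) (sn s f i) (x i) (y i)) := by
      intro f
      simp [prodOp, rho, Fin.prod_univ_three]; ring
    rw [Matrix.sum_apply, Finset.sum_congr rfl fun f _ => e f, ← Finset.mul_sum, h]
    simp only [sig, chi, eZ, Matrix.add_apply, Matrix.smul_apply, Matrix.one_apply,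
      Matrix.of_apply, GaussianInt.toComplex_def', smul_eq_mul]
    push_cast
    split_ifs <;> ring
  rw [this]
  refine (convex_convexHull ℝ _).sum_mem (fun _ _ => by norm_num) (by simp) fun f _ => ?_
  exact subset_convexHull ℝ _ ⟨_, fun i => rho_state _ _ (sn_pm s hs f i), rfl⟩

lemma chi_tr : chi.trace = 0 ∧ (chi * chi).trace = 48 := by
  constructor
  · simp only [Matrix.trace, Matrix.diag]
    rw [sum3]
    simp (decide := true) [chi]
  · simp only [Matrix.trace, Matrix.diag, chi_mul]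
    rw [sum3]
    simp (decide := true) [chi]
    ring_nf; simp

lemma sig_ge (s : ℤ) (hs : s ∈ ({1, -1} : Finset ℤ)) :
    (sig s - (1 / 24 : ℂ) • (1 : Op d3)).PosSemidef := by
  let B : Op d3 := Matrix.of fun x y =>
    (if y = x then 1 else 0) + (s : ℂ) * Complex.I * (if y = sh' x then 1 else 0)
  have : sig s - (1 / 24 : ℂ) • (1 : Op d3) = (1 / 24 : ℝ) • (B * Bᴴ) := by
    ext x y
    have hs' : s = 1 ∨ s = -1 := by simpa using hs
    have i3 : sh' x = sh' y ↔ x = y := by revert x y; decide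
    simp only [B, Matrix.smul_apply, Matrix.mul_apply, Matrix.conjTranspose_apply, Matrix.of_apply,
      add_mul, ite_mul, mul_ite, Finset.sum_add_distrib, Finset.sum_ite_eq', sig, chi,
      Matrix.sub_apply, Matrix.add_apply, Matrix.one_apply, iff2 x y, iff1 x y, ← iff1 y x, i3,
      zero_mul, mul_zero, one_mul, mul_one, Finset.mem_univ, if_true, iff1 y (sh' x)]
    have i4 : (y = sh (sh' x)) ↔ x = y := by revert x y; decide
    have i5 : (sh' x = y) ↔ x = sh y := by revert x y; decide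
    simp only [i4, i5]
    rcases hs' with rfl | rfl <;> split_ifs <;> simp [Complex.ext_iff] <;> norm_num
  rw [this]
  exact (Matrix.posSemidef_self_mul_conjTranspose B).smul (by norm_num)

lemma wit_opt (s : ℤ) (hs : s ∈ ({1, -1} : Finset ℤ)) : IsOptEW (Wit s) := by
  have hs' : s = 1 ∨ s = -1 := by simpa using hs
  refine ⟨⟨?_, ?_, ?_⟩, ?_⟩
  · refine Matrix.isHermitian_one.sub ?_
    rw [Matrix.IsHermitian, Matrix.conjTranspose_smul, chi_herm.eq]; simp
  · refine fun σ hσ => convexHull_min (t := {σ : Op d3 | 0 ≤ (Wit s * σ).trace.re}) ?_ ?_ hσ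
    · rintro _ ⟨ρ, hρ, rfl⟩
      obtain ⟨h1, h2⟩ := chi_prod ρ hρ
      rw [abs_le] at h1
      simp only [Wit, Set.mem_setOf_eq, sub_mul, one_mul, Matrix.smul_mul, Matrix.trace_sub,
        Matrix.trace_smul, Complex.sub_re, h2]
      rcases hs' with rfl | rfl <;> simp <;> linarith
    · intro x hx y hy a b ha hb _
      simp only [Set.mem_setOf_eq, mul_add, Matrix.mul_smul, Matrix.trace_add, Matrix.trace_smul,
        Complex.add_re, Complex.real_smul, Complex.re_ofReal_mul] at hx hy ⊢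
      positivity
  · let v : X → ℂ := fun x => if x = ![0, 0, 1] then 1 else if x = ![0, 1, 0] then
      (s : ℂ) * Complex.I else 0
    refine ⟨(1 / 2 : ℝ) • Matrix.vecMulVec v (star v),
      ⟨(Matrix.posSemidef_vecMulVec_self_star v).smul (by norm_num), ?_⟩, ?_⟩
    · simp only [Matrix.trace, Matrix.diag]
      rw [sum3]
      rcases hs' with rfl | rfl <;>
        simp (decide := true) [v, Matrix.vecMulVec_apply] <;> norm_num
    · simp only [Wit, sub_mul, one_mul, Matrix.smul_mul, Matrix.trace, Matrix.diag,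
        Matrix.sub_apply, Matrix.smul_apply, chi_mul]
      rw [sum3]
      rcases hs' with rfl | rfl <;>
        simp (decide := true) [v, Matrix.vecMulVec_apply] <;> norm_num
  · rintro ⟨ε, P, hε, hP, hP0, -, h, -⟩
    have h1 := h _ (sig_sep s hs)
    have h2 : (Wit s * sig s).trace = 0 := by
      simp only [Wit, sig, sub_mul, mul_add, one_mul, mul_one, Matrix.smul_mul, Matrix.mul_smul,
        Matrix.trace_sub, Matrix.trace_add, Matrix.trace_smul, chi_tr.1, chi_tr.2,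
        Matrix.trace_one]
      rcases hs' with rfl | rfl <;> simp <;> norm_num
    have h3 := tr_mul_nonneg hP (sig_ge s hs)
    rw [sub_mul, Matrix.trace_sub, h2, Matrix.smul_mul, Matrix.trace_smul] at h1
    rw [mul_sub, Matrix.trace_sub, Matrix.mul_smul, mul_one, Matrix.trace_smul] at h3
    simp at h1 h3
    have h4 := Complex.nonneg_iff.1 hP.trace_nonneg
    apply hP0
    rw [← hP.trace_eq_zero_iff]
    apply Complex.ext
    · have : (P * sig s).trace.re ≤ 0 := by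
        by_contra hc
        nlinarith [mul_pos hε (not_le.1 hc)]
      simp; linarith [h4.1]
    · simp [← h4.2]

lemma prodOp_mul (A B : Fin 3 → Matrix (Fin 2) (Fin 2) ℂ) :
    prodOp (d := d3) A * prodOp (d := d3) B = prodOp (d := d3) fun i => A i * B i := by
  ext x y
  simp only [prodOp, Matrix.mul_apply, Matrix.of_apply, ← Finset.prod_mul_distrib]
  rw [← Fintype.piFinset_univ, ← Finset.prod_univ_sum (fun _ => Finset.univ)
    (fun i t => A i (x i) t * B i t (y i))]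

lemma prodOp_star (A : Fin 3 → Matrix (Fin 2) (Fin 2) ℂ) :
    (prodOp (d := d3) A)ᴴ = prodOp (d := d3) fun i => star (A i) := by
  ext x y; simp [prodOp, Matrix.star_apply]

lemma prodOp_one : prodOp (d := d3) (fun _ => 1) = 1 := by
  ext x y
  simp only [prodOp, Matrix.of_apply, Matrix.one_apply]
  by_cases h : x = y
  · simp [h]
  · obtain ⟨i, hi⟩ := Function.ne_iff.1 h
    rw [if_neg h]
    exact Finset.prod_eq_zero (Finset.mem_univ i) (if_neg hi)

lemma comm_diag (A : Matrix (Fin 2) (Fin 2) ℂ) :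
    chi * prodOp (d := d3) (fun _ => A) = prodOp (d := d3) (fun _ => A) * chi := by
  ext x y
  rw [chi_mul, mul_chi]
  simp [prodOp, Fin.prod_univ_three, sh, sh']
  ring

lemma not_lu : ¬ LU (Wit 1) (Wit (-1)) := by
  rintro ⟨U, hU, h⟩
  have u1 : (prodOp (d := d3) U)ᴴ * prodOp (d := d3) U = 1 := by
    rw [prodOp_star, prodOp_mul, ← prodOp_one]
    congr 1; funext i; exact Matrix.mem_unitaryGroup_iff'.1 (hU i)
  have h1 : chi * prodOp (d := d3) U = -(prodOp (d := d3) U * chi) := by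
    have := congrArg (· * prodOp (d := d3) U) h
    simp only [mul_assoc, u1, mul_one, Wit] at this
    simp [sub_mul, mul_sub, add_mul] at this
    rw [eq_neg_iff_add_eq_zero]
    rw [sub_eq_add_neg, add_right_inj, eq_neg_iff_add_eq_zero] at this
    exact this
  let V : Fin 3 → Matrix (Fin 2) (Fin 2) ℂ := fun i => star (U 0) * U i
  have h2 : chi * prodOp (d := d3) V = -(prodOp (d := d3) V * chi) := by
    rw [show prodOp (d := d3) V = _ from (prodOp_mul (fun _ => star (U 0)) U).symm, ← mul_assoc,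
      comm_diag, mul_assoc, h1, mul_neg, mul_assoc]
  have v0 : V 0 = 1 := Matrix.mem_unitaryGroup_iff'.1 (hU 0)
  have vu : ∀ i, V i ∈ Matrix.unitaryGroup (Fin 2) ℂ := fun i =>
    mul_mem (Unitary.star_mem (hU 0)) (hU i)
  have dt : ∀ i, V i 0 0 * V i 1 1 - V i 0 1 * V i 1 0 ≠ 0 := fun i => by
    rw [← Matrix.det_fin_two]
    exact (Matrix.isUnit_det_of_left_inverse (Matrix.mem_unitaryGroup_iff'.1 (vu i))).ne_zero
  have E : ∀ x y : X, prodOp (d := d3) V (sh' x) y - prodOp (d := d3) V (sh x) y +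
      (prodOp (d := d3) V x (sh y) - prodOp (d := d3) V x (sh' y)) = 0 := by
    intro x y
    have := congrFun (congrFun h2 x) y
    rw [Matrix.neg_apply, chi_mul, mul_chi] at this
    have h3 : (2 * Complex.I) ≠ 0 := by simp
    apply mul_left_cancel₀ h3
    linear_combination this
  have d1 := dt 1
  have d2 := dt 2
  have a1 := E ![0, 0, 1] ![0, 0, 0]
  have a2 := E ![0, 1, 0] ![0, 0, 0]
  have a3 := E ![1, 0, 1] ![0, 0, 0]
  have a4 := E ![1, 1, 0] ![1, 1, 1]
  have a5 := E ![1, 0, 1] ![1, 1, 1]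
  have a6 := E ![0, 1, 0] ![1, 1, 1]
  have b1 := E ![0, 0, 1] ![0, 1, 0]
  have b2 := E ![0, 1, 0] ![1, 0, 0]
  have b3 := E ![1, 0, 0] ![0, 0, 1]
  simp (decide := true) [prodOp, Fin.prod_univ_three, sh, sh', v0, Matrix.one_apply]
    at a1 a2 a3 a4 a5 a6 b1 b2 b3
  clear E dt vu v0 h2 h1 u1 h
  generalize V 1 0 0 = p at *
  generalize V 1 0 1 = q at *
  generalize V 1 1 0 = r at *
  generalize V 1 1 1 = t at *
  generalize V 2 0 0 = p' at *
  generalize V 2 0 1 = q' at *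
  generalize V 2 1 0 = r' at *
  generalize V 2 1 1 = t' at *
  grind

theorem result : ∃ (n : ℕ) (d : Fin n → ℕ) (W M : Op d), 2 ≤ n ∧ (∀ i, 2 ≤ d i) ∧
    IsOptEW W ∧ IsOptEW M ∧ (∃ u : ℝ, W + M = (u : ℂ) • (1 : Op d)) ∧ ¬ LU W M := by
  refine ⟨3, d3, Wit 1, Wit (-1), by norm_num, fun _ => le_rfl, wit_opt 1 (by decide),
    wit_opt (-1) (by decide), ⟨2, ?_⟩, not_lu⟩
  simp [Wit, two_smul]

end Pool.Agent.Results.MP_472e54_mp.Chiral
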